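import Pool.Agent.H2.CC.Cur

/-!
# C1 assembly (CH-ALL): no ample subgroup acts trivially on `R_n / I_(n-1)`
-/

open Pool.Agent.H13.CA Pool.Agent.H22.CG

namespace Pool.Agent.H2.CC

/-- realisation of products of powers by elements of `V` -/
theorem exists_rep {k : Type*} [Field k] {m : ℕ} {F : FormalGroup (MvPowerSeries (Fin m) k)}
    {V : Subgroup (Lift k F)} {G : FormalGroup k} [G.IsComm] {N r : ℕ}
    (hamp : ∀ θ : EndF G, IsUnit θ → ∃ a : V, red (a : Lift k F).f = (θ ^ N).s) {ω : EndF G}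
    (Q : Fin r → Polynomial ℤ) (hu : ∀ i, IsUnit (Polynomial.aeval ω (Q i))) (x : Fin r → ℕ) :
    ∃ a : V, red (a : Lift k F).f = (Polynomial.aeval ω (∏ i, Q i ^ (N * x i))).s := by
  have hA : ∀ i, ∃ a : V, Rep ω (a : Lift k F) (Q i ^ N) := by
    intro i
    obtain ⟨a, ha⟩ := hamp _ (hu i)
    refine ⟨a, ?_⟩
    unfold Rep
    rw [ha, map_pow]
  choose A hA using hA
  refine ⟨(List.ofFn fun i => A i ^ x i).prod, ?_⟩
  have h2 : Rep ω (((List.ofFn fun i => A i ^ x i).prod : V) : Lift k F)
      (∏ i, (Q i ^ N) ^ x i) := by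
    have h3 : (((List.ofFn fun i => A i ^ x i).prod : V) : Lift k F) =
        (List.ofFn fun i => (A i : Lift k F) ^ x i).prod := by
      rw [← Subgroup.subtype_apply, map_list_prod, List.map_ofFn]
      rfl
    rw [h3]
    exact Rep.list _ _ fun i => (hA i).pow _
  unfold Rep at h2
  rw [h2]
  congr 2
  refine Finset.prod_congr rfl fun i _ => ?_
  rw [pow_mul]

theorem proj_cc {k : Type*} [Field k] {s : ℕ}
    {π : MvPowerSeries (Fin (s + 1)) k →ₐ[k] PowerSeries k} (hπ : IsProj k s π)
    (x : MvPowerSeries (Fin (s + 1)) k) :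
    PowerSeries.constantCoeff (π x) = MvPowerSeries.constantCoeff x := by
  have h5 : Istd k (s + 1) (s + 1) ≤
      (Ideal.span {(PowerSeries.X : PowerSeries k)}).comap π := by
    unfold Istd
    rw [Ideal.span_le]
    rintro _ ⟨i, _, rfl⟩
    change π (MvPowerSeries.X i) ∈ Ideal.span {(PowerSeries.X : PowerSeries k)}
    rcases Fin.eq_castSucc_or_eq_last i with ⟨j, rfl⟩ | rfl
    · rw [hπ.low]
      exact Ideal.zero_mem _
    · rw [hπ.high]
      exact Ideal.mem_span_singleton_self _
  have h1 : x - algebraMap k _ (MvPowerSeries.constantCoeff x) ∈ Istd k (s + 1) (s + 1) := by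
    rw [Istd_max, maxI_eq, RingHom.mem_ker, map_sub, MvPowerSeries.algebraMap_apply]
    simp
  have h2 : π (x - algebraMap k _ (MvPowerSeries.constantCoeff x)) ∈
      Ideal.span {(PowerSeries.X : PowerSeries k)} := h5 h1
  rw [Ideal.mem_span_singleton, PowerSeries.X_dvd_iff, map_sub, map_sub, AlgHom.commutes,
    sub_eq_zero] at h2
  rw [h2]
  exact PowerSeries.constantCoeff_C _

theorem nontriv_main {k : Type*} [Field k] [IsAlgClosed k] (p : ℕ) [Fact p.Prime] [CharP k p]
    {s : ℕ} {F : FormalGroup (MvPowerSeries (Fin (s + 1)) k)} (hF : IsLT k p (s + 1) F)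
    {π : MvPowerSeries (Fin (s + 1)) k →ₐ[k] PowerSeries k} (hπ : IsProj k s π)
    (V : Subgroup (Lift k F)) (hV : Ample V) :
    ∃ a ∈ V, ∃ x, π (a.g x) ≠ π x := by
  by_contra hcon
  push Not at hcon
  have hp : p.Prime := Fact.out
  set F' := F.map (π : MvPowerSeries (Fin (s + 1)) k →+* PowerSeries k) with hF'
  have hcomm : F.IsComm := hF.comm
  have hcomm' : F'.IsComm := Pool.Agent.H13.CA.IsComm.map' hcomm _
  have hlow : ∀ i, i < p ^ (s + 1) → PowerSeries.coeff i (mulSer F' p) = 0 := by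
    intro i hi
    rw [hF', mulSer_map, PowerSeries.coeff_map]
    exact (hπ.ker _).mpr (hF.low s (Nat.le_succ s) i hi)
  have hv : PowerSeries.coeff (p ^ (s + 1)) (mulSer F' p) ≠ 0 := by
    rw [hF', mulSer_map, PowerSeries.coeff_map]
    have h4 : π (PowerSeries.coeff (p ^ (s + 1)) (mulSer F p) - MvPowerSeries.X (Fin.last s)) = 0 :=
      (hπ.ker _).mpr (hF.mid (Fin.last s))
    rw [map_sub, hπ.high, sub_eq_zero] at h4
    intro h5
    have h6 : (PowerSeries.X : PowerSeries k) = 0 := by
      rw [← h4]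
      exact h5
    exact PowerSeries.X_ne_zero h6
  have hspc : spc F' = special F := by
    unfold spc special
    rw [hF', fmap_map]
    congr 1
    exact RingHom.ext fun x => proj_cc hπ x
  have hsp0 : HasHeight p (s + 1 + 1) (special F) := by
    constructor
    · intro i hi
      unfold special
      rw [mulSer_map, PowerSeries.coeff_map]
      have h2 := hF.low (s + 1) le_rfl i hi
      rw [Istd_max, maxI_eq] at h2
      exact h2
    · unfold special
      rw [mulSer_map, PowerSeries.coeff_map]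
      exact hF.top.map _
  have hsp : HasHeight p (s + 1 + 1) (spc F') := by
    rw [hspc]
    exact hsp0
  have hred : ∀ f : PowerSeries (MvPowerSeries (Fin (s + 1)) k),
      rd (PowerSeries.map (π : MvPowerSeries (Fin (s + 1)) k →+* PowerSeries k) f) = red f := by
    intro f
    have h1 : (PowerSeries.constantCoeff (R := k)).comp
        (π : MvPowerSeries (Fin (s + 1)) k →+* PowerSeries k) =
        MvPowerSeries.constantCoeff (σ := Fin (s + 1)) (R := k) :=
      RingHom.ext fun x => proj_cc hπ x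
    unfold red rd
    rw [map_map', h1]
  have hhom : ∀ a ∈ V, IsHom F' (F'.map ((1 : PowerSeries k ≃ₐ[k] PowerSeries k) :
      PowerSeries k →+* PowerSeries k))
      (PowerSeries.map (π : MvPowerSeries (Fin (s + 1)) k →+* PowerSeries k) a.f) := by
    intro a ha
    have h1 := a.hom.map (π : MvPowerSeries (Fin (s + 1)) k →+* PowerSeries k)
    have h2 : F'.map ((1 : PowerSeries k ≃ₐ[k] PowerSeries k) : PowerSeries k →+* PowerSeries k) =
        (F.map (a.g : MvPowerSeries (Fin (s + 1)) k →+* MvPowerSeries (Fin (s + 1)) k)).map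
          (π : MvPowerSeries (Fin (s + 1)) k →+* PowerSeries k) := by
      rw [hF', fmap_map, fmap_map]
      congr 1
      exact RingHom.ext fun x => (hcon a ha x).symm
    rw [h2]
    exact h1
  obtain ⟨N, hN, hamp⟩ := hV
  have hamp' : ∀ θ : EndF (spc F'), IsUnit θ → ∃ a : V, red (a : Lift k F).f = (θ ^ N).s := by
    intro θ hθ
    have h2 : IsHom (special F) (special F) θ.s := isHom_of_eq hspc θ.hom
    have h3 : IsUnit (PowerSeries.coeff 1 θ.s) := by
      have := hθ.map (Pool.Agent.H22.CG.lin (spc F'))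
      rwa [Pool.Agent.H22.CG.lin_apply] at this
    obtain ⟨a, ha, hr⟩ := hamp θ.s h2 h3
    exact ⟨⟨a, ha⟩, by rw [pow_s]; exact hr⟩
  obtain ⟨ω, b, hb, hunit, C, hC⟩ := star p F' (h := s + 1) (n := s + 1 + 1) (by omega)
    (by omega) hlow hv hsp hN (by
      intro θ hθ
      obtain ⟨a, ha⟩ := hamp' θ hθ
      exact ⟨1, _, hhom a a.2, by rw [hred, ha]⟩)
  obtain ⟨a, ha⟩ := exists_rep hamp' (ω := ω)
    (fun i : Fin (s + 1) => 1 + (p : Polynomial ℤ) ^ b * Polynomial.X ^ (i.val + 1))
    (by
      intro i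
      have h3 := hunit i
      simpa using h3) (fun _ => 1)
  refine hC (fun _ => 1) 0 ?_ 1 _ (hhom a a.2) ((hred _).trans ha) ?_
  · intro h
    have h1 := h ⟨0, by omega⟩
    rw [zero_add, pow_one] at h1
    exact hp.one_lt.ne' (Nat.dvd_one.mp h1)
  · rw [AlgEquiv.one_apply, sub_self]
    exact dvd_zero _

end Pool.Agent.H2.CC
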