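import Pool.Agent.H2.CC.Lin
import Pool.Agent.H13.CA.Grp

/-!
# C1 assembly (CH-ALL): the linear coefficients of the automorphisms have finite order
-/

open PowerSeries
open Pool.Agent.H13.CA

namespace Pool.Agent.H2.CC

section coef

variable {R : Type*} [CommRing R]

theorem coeff_subst_left {f a : R⟦X⟧} (hf : constantCoeff f = 0) {N : ℕ} (hN : 1 ≤ N)
    (ha : X ^ N ∣ a) : coeff N (PowerSeries.subst a f) = coeff 1 f * coeff N a := by
  have ha0 : constantCoeff a = 0 := by
    obtain ⟨b, rfl⟩ := ha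
    rw [map_mul, map_pow, constantCoeff_X, zero_pow (by omega), zero_mul]
  have hs := hs_zero ha0
  have h1 : f = X * (mk fun n => coeff (n + 1) f) := by
    have := eq_X_mul_shift_add_const f
    rw [hf, map_zero, add_zero] at this
    exact this
  have h2 : (mk fun n => coeff (n + 1) f) =
      X * (mk fun n => coeff (n + 1 + 1) f) + C (coeff 1 f) := by
    have := eq_X_mul_shift_add_const (mk fun n => coeff (n + 1) f)
    rw [show constantCoeff (mk fun n => coeff (n + 1) f) = coeff 1 f by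
      rw [← coeff_zero_eq_constantCoeff_apply, coeff_mk]] at this
    simpa using this
  have h3 : f = X ^ 2 * (mk fun n => coeff (n + 1 + 1) f) + C (coeff 1 f) * X := by
    conv_lhs => rw [h1, h2]
    ring
  have h4 : PowerSeries.subst a f =
      a ^ 2 * PowerSeries.subst a (mk fun n => coeff (n + 1 + 1) f) + C (coeff 1 f) * a := by
    conv_lhs => rw [h3]
    rw [← coe_substAlgHom hs, map_add, map_mul, map_mul, map_pow, substAlgHom_X hs]
    congr 2
    have h5 : (C (coeff 1 f) : R⟦X⟧) = algebraMap R R⟦X⟧ (coeff 1 f) := rfl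
    rw [h5, AlgHom.commutes]
  rw [h4, map_add, coeff_C_mul]
  have h6 : X ^ (N + 1) ∣ a ^ 2 * PowerSeries.subst a (mk fun n => coeff (n + 1 + 1) f) := by
    refine Dvd.dvd.mul_right ?_ _
    refine dvd_trans (pow_dvd_pow X (show N + 1 ≤ N * 2 by omega)) ?_
    rw [pow_mul]
    exact pow_dvd_pow_of_dvd ha 2
  rw [X_pow_dvd_iff.mp h6 N (Nat.lt_succ_self N), zero_add]

theorem coeff_subst_right {f g : R⟦X⟧} (hf : constantCoeff f = 0) {N : ℕ} (hg : X ^ N ∣ g) :
    coeff N (PowerSeries.subst f g) = coeff N g * coeff 1 f ^ N := by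
  have hs := hs_zero hf
  obtain ⟨w, rfl⟩ := hg
  have h1 : f = X * (mk fun n => coeff (n + 1) f) := by
    have := eq_X_mul_shift_add_const f
    rw [hf, map_zero, add_zero] at this
    exact this
  have h2 : PowerSeries.subst f (X ^ N * w) = f ^ N * PowerSeries.subst f w := by
    rw [← coe_substAlgHom hs, map_mul, map_pow, substAlgHom_X hs]
  have h3 : ∀ d : R⟦X⟧, coeff N (X ^ N * d) = constantCoeff d := by
    intro d
    have := coeff_X_pow_mul d N 0
    rwa [zero_add, coeff_zero_eq_constantCoeff_apply] at this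
  have h4 : constantCoeff (PowerSeries.subst f w : R⟦X⟧) = constantCoeff w := by
    have h5 : w = X * (mk fun n => coeff (n + 1) w) + C (constantCoeff w) :=
      eq_X_mul_shift_add_const w
    have h6 : PowerSeries.subst f w =
        f * PowerSeries.subst f (mk fun n => coeff (n + 1) w) + C (constantCoeff w) := by
      conv_lhs => rw [h5]
      rw [← coe_substAlgHom hs, map_add, map_mul, substAlgHom_X hs]
      congr 1
      have h7 : (C (constantCoeff w) : R⟦X⟧) = algebraMap R R⟦X⟧ (constantCoeff w) := rfl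
      rw [h7, AlgHom.commutes]
    rw [h6, map_add, map_mul, hf, zero_mul, zero_add, constantCoeff_C]
  have h8 : coeff N (PowerSeries.subst f (X ^ N * w)) =
      constantCoeff (mk fun n => coeff (n + 1) f) ^ N * constantCoeff w := by
    rw [h2]
    have h9 : f ^ N = X ^ N * (mk fun n => coeff (n + 1) f) ^ N := by
      rw [← mul_pow, ← h1]
    rw [h9, mul_assoc, h3, map_mul, map_pow, h4]
  rw [h8, h3, ← coeff_zero_eq_constantCoeff_apply (mk _), coeff_mk, mul_comm]

theorem dvd_of_low {g : R⟦X⟧} {N : ℕ} (h : ∀ i, i < N → coeff i g = 0) : X ^ N ∣ g :=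
  X_pow_dvd_iff.mpr h

/-- comparison of the first coefficients of `[n]` -/
theorem hom_coeff {F G : FormalGroup R} {f : R⟦X⟧} (hf : IsHom F G f) {n N : ℕ} (hN : 1 ≤ N)
    (hF : ∀ i, i < N → coeff i (mulSer F n) = 0) (hG : ∀ i, i < N → coeff i (mulSer G n) = 0) :
    coeff 1 f * coeff N (mulSer F n) = coeff N (mulSer G n) * coeff 1 f ^ N := by
  rw [← coeff_subst_left hf.1 hN (dvd_of_low hF), hf.mulSer,
    coeff_subst_right hf.1 (dvd_of_low hG)]

end coef

variable {k : Type*} [Field k]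

theorem coeff_one_red (f : k⟦X⟧⟦X⟧) (N : ℕ) :
    coeff N (PowerSeries.map (constantCoeff (R := k)) f) = constantCoeff (coeff N f) :=
  coeff_map _ _ _

/-- the linear coefficient of an endomorphism of a group of height `n` -/
theorem end_lin {p n : ℕ} (hp : 1 ≤ p) {Γ : FormalGroup k} (hΓ : HasHeight p n Γ)
    {θ : k⟦X⟧} (hθ : IsHom Γ Γ θ) (hu : coeff 1 θ ≠ 0) : coeff 1 θ ^ (p ^ n - 1) = 1 := by
  have h1 := hom_coeff hθ (Nat.one_le_pow n p hp) hΓ.1 hΓ.1
  have h2 : coeff (p ^ n) (mulSer Γ p) ≠ 0 := hΓ.2.ne_zero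
  have h3 : coeff 1 θ = coeff 1 θ ^ (p ^ n) := by
    have h4 : coeff (p ^ n) (mulSer Γ p) * coeff 1 θ =
        coeff (p ^ n) (mulSer Γ p) * coeff 1 θ ^ (p ^ n) := by
      rw [← h1, mul_comm]
    exact mul_left_cancel₀ h2 h4
  have h5 : p ^ n = (p ^ n - 1) + 1 := by
    have := Nat.one_le_pow n p hp
    omega
  rw [h5, pow_succ] at h3
  have h6 : coeff 1 θ ^ (p ^ n - 1) * coeff 1 θ = 1 * coeff 1 θ := by
    rw [one_mul]
    exact h3.symm
  exact mul_right_cancel₀ hu h6

theorem coeff_apply_order (φ : k⟦X⟧ ≃ₐ[k] k⟦X⟧) (e : ℕ) (w u : k⟦X⟧) :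
    coeff e (φ (X ^ e * w) * u) = lin φ ^ e * constantCoeff w * constantCoeff u := by
  obtain ⟨c, hc⟩ := X_dvd φ
  have h0 : lin φ = constantCoeff c := by
    rw [lin_apply, hc, ← zero_add 1, coeff_succ_X_mul, coeff_zero_eq_constantCoeff_apply]
  have h1 : φ (X ^ e * w) * u = X ^ e * (c ^ e * φ w * u) := by
    rw [map_mul, map_pow, hc]
    ring
  rw [h1]
  have := coeff_X_pow_mul (c ^ e * φ w * u) e 0
  rw [zero_add] at this
  rw [this, coeff_zero_eq_constantCoeff_apply, map_mul, map_mul, map_pow, cc_apply, h0]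

/-- the linear coefficients of the automorphisms of `k⟦X⟧` which belong to pairs have finite order -/
theorem lin_fin {p h n : ℕ} (hp : 2 ≤ p) (hn : 1 ≤ n) (hhn : h < n)
    {F : FormalGroup k⟦X⟧} (low : ∀ i, i < p ^ h → coeff i (mulSer F p) = 0)
    (hv : coeff (p ^ h) (mulSer F p) ≠ 0)
    (hs : HasHeight p n (F.map (constantCoeff (R := k)))) :
    ∃ K : ℕ, 1 ≤ K ∧ ∀ a : Lift k F, lin a.g ^ K = 1 := by
  set v := coeff (p ^ h) (mulSer F p) with hvdef
  have hv0 : constantCoeff v = 0 := by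
    have h1 := hs.1 (p ^ h) (Nat.pow_lt_pow_right (by omega) hhn)
    rw [mulSer_map, coeff_map] at h1
    exact h1
  obtain ⟨e, w, hvw, hw⟩ : ∃ (e : ℕ) (w : k⟦X⟧), v = X ^ e * w ∧ constantCoeff w ≠ 0 := by
    refine ⟨v.order.toNat, divXPowOrder v, X_pow_order_mul_divXPowOrder.symm, ?_⟩
    have h1 : IsUnit (divXPowOrder v) :=
      IsUnit.of_mul_eq_one _ (Inv_divided_by_X_pow_order_rightInv hv)
    exact (isUnit_iff_constantCoeff.mp h1).ne_zero
  have he : 1 ≤ e := by
    by_contra hcon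
    have he0 : e = 0 := by omega
    rw [hvw, he0, pow_zero, one_mul] at hv0
    exact hw hv0
  have hq : 1 ≤ p ^ n - 1 := by
    have h1 : 2 ^ n ≤ p ^ n := Nat.pow_le_pow_left hp n
    have h2 : 2 ^ 1 ≤ 2 ^ n := Nat.pow_le_pow_right (by omega) hn
    omega
  refine ⟨e * (p ^ n - 1), Nat.one_le_iff_ne_zero.mpr (Nat.mul_ne_zero (by omega) (by omega)), ?_⟩
  intro a
  set b := constantCoeff (coeff 1 a.f) with hb
  have hGl : ∀ i, i < p ^ h → coeff i (mulSer (F.map (a.g : k⟦X⟧ →+* k⟦X⟧)) p) = 0 := by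
    intro i hi
    rw [mulSer_map, coeff_map, low i hi, map_zero]
  have h1 := hom_coeff a.hom (Nat.one_le_pow h p (by omega)) low hGl
  rw [mulSer_map, coeff_map, ← hvdef] at h1
  have h1' : coeff 1 a.f * v = a.g v * coeff 1 a.f ^ p ^ h := h1
  have h2 : b * constantCoeff w = lin a.g ^ e * constantCoeff w * b ^ p ^ h := by
    have h3 := congrArg (coeff e) h1'
    rw [hvw, coeff_apply_order, map_pow, ← hb] at h3
    rw [← h3]
    have h4 : coeff 1 a.f * (X ^ e * w) = X ^ e * (coeff 1 a.f * w) := by ring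
    have := coeff_X_pow_mul (coeff 1 a.f * w) e 0
    rw [zero_add] at this
    rw [h4, this, coeff_zero_eq_constantCoeff_apply, map_mul]
  have h5 : b = lin a.g ^ e * b ^ p ^ h := by
    have h6 : constantCoeff w * b = constantCoeff w * (lin a.g ^ e * b ^ p ^ h) := by
      linear_combination h2
    exact mul_left_cancel₀ hw h6
  -- the special fibre
  have hgs : (F.map (a.g : k⟦X⟧ →+* k⟦X⟧)).map (constantCoeff (R := k)) =
      F.map (constantCoeff (R := k)) := by
    rw [fmap_map]
    congr 1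
    exact RingHom.ext fun x => cc_apply a.g x
  have hθ : IsHom (F.map (constantCoeff (R := k))) (F.map (constantCoeff (R := k)))
      (PowerSeries.map (constantCoeff (R := k)) a.f) := by
    have := a.hom.map (constantCoeff (R := k))
    rwa [hgs] at this
  have hb1 : coeff 1 (PowerSeries.map (constantCoeff (R := k)) a.f) = b := coeff_map _ _ _
  have hb0 : b ≠ 0 := by
    have h6 : coeff 1 (PowerSeries.subst a.f a.f') = 1 := by rw [a.left, coeff_one_X]
    have h7 : (X : k⟦X⟧⟦X⟧) ^ 1 ∣ a.f := by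
      rw [pow_one]
      exact X_dvd_iff.mpr a.hom.1
    rw [coeff_subst_left a.zero' le_rfl h7] at h6
    intro h8
    have h9 := congrArg constantCoeff h6
    rw [map_mul, ← hb, h8, mul_zero, map_one] at h9
    exact zero_ne_one h9
  have hbq : b ^ (p ^ n - 1) = 1 := by
    have := end_lin (by omega) hs hθ (by rw [hb1]; exact hb0)
    rwa [hb1] at this
  have h10 : (lin a.g ^ e * b ^ p ^ h) ^ (p ^ n - 1) = 1 := by rw [← h5, hbq]
  rw [mul_pow, ← pow_mul, ← pow_mul, mul_comm (p ^ h), pow_mul b, hbq, one_pow, mul_one] at h10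
  exact h10

end Pool.Agent.H2.CC
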