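import Pool.Agent.H2.CC.Par
import Pool.Agent.H2.CC.Wld

/-!
# C1 assembly (CH-ALL): liftings pushed forward to the curve
-/

open Pool.Agent.H13.CA

namespace Pool.Agent.H2.CC

universe u

variable {k : Type u} [Field k] {m : ℕ} {F : FormalGroup (MvPowerSeries (Fin m) k)}
  {P : Ideal (MvPowerSeries (Fin m) k)} {ε : MvPowerSeries (Fin m) k →ₐ[k] PowerSeries k}

/-- the lifting over `k⟦X⟧` -/
noncomputable def psh (ε : MvPowerSeries (Fin m) k →ₐ[k] PowerSeries k) (a : Lift k F)
    (γ : PowerSeries k ≃ₐ[k] PowerSeries k) (h : ∀ x, γ (ε x) = ε (a.g x)) :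
    Lift k (F.map (ε : MvPowerSeries (Fin m) k →+* PowerSeries k)) where
  g := γ
  f := PowerSeries.map (ε : MvPowerSeries (Fin m) k →+* PowerSeries k) a.f
  f' := PowerSeries.map (ε : MvPowerSeries (Fin m) k →+* PowerSeries k) a.f'
  hom := by
    have h1 := a.hom.map (ε : MvPowerSeries (Fin m) k →+* PowerSeries k)
    have h2 : (F.map (ε : MvPowerSeries (Fin m) k →+* PowerSeries k)).map
        (γ : PowerSeries k →+* PowerSeries k) =
        (F.map (a.g : MvPowerSeries (Fin m) k →+* MvPowerSeries (Fin m) k)).map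
          (ε : MvPowerSeries (Fin m) k →+* PowerSeries k) := by
      rw [fmap_map, fmap_map]
      congr 1
      exact RingHom.ext fun x => h x
    rw [h2]
    exact h1
  zero' := map_hs a.zero' _
  left := by rw [← map_subst' (hs_zero a.hom.1), a.left, map_X']
  right := by rw [← map_subst' (hs_zero a.zero'), a.right, map_X']

theorem special_eq (hε : Par P ε) :
    (F.map (ε : MvPowerSeries (Fin m) k →+* PowerSeries k)).map
      (PowerSeries.constantCoeff (R := k)) = special F := by
  unfold special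
  rw [fmap_map]
  congr 1
  exact RingHom.ext fun x => hε.cc x

theorem red_psh (hε : Par P ε) (f : PowerSeries (MvPowerSeries (Fin m) k)) :
    PowerSeries.map (PowerSeries.constantCoeff (R := k))
      (PowerSeries.map (ε : MvPowerSeries (Fin m) k →+* PowerSeries k) f) = red f := by
  have h1 : (PowerSeries.constantCoeff (R := k)).comp
      (ε : MvPowerSeries (Fin m) k →+* PowerSeries k) =
      MvPowerSeries.constantCoeff (σ := Fin m) (R := k) := RingHom.ext fun x => hε.cc x
  unfold red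
  rw [map_map', h1]

theorem stable_iff (V : Subgroup (Lift k F))
    (hst : ∀ a ∈ V, P.map (a.g : MvPowerSeries (Fin m) k →+* MvPowerSeries (Fin m) k) ≤ P)
    {a : Lift k F} (ha : a ∈ V) (x : MvPowerSeries (Fin m) k) : x ∈ P ↔ a.g x ∈ P := by
  constructor
  · intro hx
    exact hst a ha (Ideal.mem_map_of_mem _ hx)
  · intro hx
    have h1 := hst a⁻¹ (V.inv_mem ha) (Ideal.mem_map_of_mem _ hx)
    have h2 : (a⁻¹.g : MvPowerSeries (Fin m) k →+* MvPowerSeries (Fin m) k) (a.g x) = x :=
      a.g.symm_apply_apply x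
    rw [h2] at h1
    exact h1

/-- the action of `V` on the curve -/
theorem exists_act (hε : Par P ε) (V : Subgroup (Lift k F))
    (hst : ∀ a ∈ V, P.map (a.g : MvPowerSeries (Fin m) k →+* MvPowerSeries (Fin m) k) ≤ P) :
    ∃ Γ : V →* (PowerSeries k ≃ₐ[k] PowerSeries k), ∀ (a : V) x,
      Γ a (ε x) = ε ((a : Lift k F).g x) := by
  choose Γ hΓ using fun a : V => hε.ext (a : Lift k F).g (stable_iff V hst a.2)
  refine ⟨{ toFun := Γ, map_one' := ?_, map_mul' := ?_ }, hΓ⟩
  · apply hε.uniq
    intro x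
    rw [hΓ]
    rfl
  · intro a b
    apply hε.uniq
    intro x
    rw [hΓ]
    have h1 : (Γ a * Γ b) (ε x) = Γ a (Γ b (ε x)) := rfl
    rw [h1, hΓ, hΓ]
    rfl

theorem last_step {s : ℕ} {P : Ideal (MvPowerSeries (Fin (s + 1)) k)} (hP : P.IsPrime)
    {π : MvPowerSeries (Fin (s + 1)) k →ₐ[k] PowerSeries k} (hπ : IsProj k s π)
    (hle : Istd k (s + 1) s ≤ P) (hX : MvPowerSeries.X (Fin.last s) ∉ P) :
    P = Istd k (s + 1) s := by
  refine le_antisymm ?_ hle
  intro x hx
  by_contra hxn
  have h0 : π x ≠ 0 := fun h => hxn ((hπ.ker x).mp h)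
  have hw : IsUnit (PowerSeries.divXPowOrder (π x)) :=
    IsUnit.of_mul_eq_one _ (PowerSeries.Inv_divided_by_X_pow_order_rightInv h0)
  obtain ⟨y, hy⟩ := hπ.surj (PowerSeries.divXPowOrder (π x))
  have h1 : x - MvPowerSeries.X (Fin.last s) ^ (π x).order.toNat * y ∈ Istd k (s + 1) s := by
    rw [← hπ.ker, map_sub, map_mul, map_pow, hπ.high, hy,
      PowerSeries.X_pow_order_mul_divXPowOrder, sub_self]
  have h2 : MvPowerSeries.X (Fin.last s) ^ (π x).order.toNat * y ∈ P := by
    have h3 := P.sub_mem hx (hle h1)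
    rwa [sub_sub_cancel] at h3
  rcases hP.mem_or_mem h2 with h3 | h3
  · exact hX (hP.mem_of_pow_mem _ h3)
  · have h4 : y ∈ Istd k (s + 1) (s + 1) := by
      rw [Istd_max]
      exact IsLocalRing.le_maximalIdeal hP.ne_top h3
    have h5 : Istd k (s + 1) (s + 1) ≤
        (Ideal.span {(PowerSeries.X : PowerSeries k)}).comap π := by
      unfold Istd
      rw [Ideal.span_le]
      rintro _ ⟨i, _, rfl⟩
      change π (MvPowerSeries.X i) ∈ Ideal.span {(PowerSeries.X : PowerSeries k)}
      rcases Fin.eq_castSucc_or_eq_last i with ⟨j, rfl⟩ | rfl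
      · rw [hπ.low]
        exact Ideal.zero_mem _
      · rw [hπ.high]
        exact Ideal.mem_span_singleton_self _
    have h6 : π y ∈ Ideal.span {(PowerSeries.X : PowerSeries k)} := h5 h4
    rw [hy, Ideal.mem_span_singleton, PowerSeries.X_dvd_iff] at h6
    exact (PowerSeries.isUnit_iff_constantCoeff.mp hw).ne_zero h6

end Pool.Agent.H2.CC
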