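import Pool.Agent.H22.CG.Gro
import Pool.Agent.H13.CA.LAZ

/-!
# CH-ALL, chapter GROWTH: `ω` and `P` of (STAR) from Lazard's classification
-/

open PowerSeries

namespace Pool.Agent.H2.CC

open Pool.Agent.H13.CA Pool.Agent.H22.CG

variable {k : Type*} [Field k] (p : ℕ) [Fact p.Prime] [CharP k p]
  {Γ : FormalGroup k}

/-- `x ^ p` is a homomorphism to the Frobenius twist -/
theorem isHom_frob (Γ : FormalGroup k) :
    IsHom Γ (Γ.map (frobenius k p)) ((X : k⟦X⟧) ^ p) := by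
  have hp : p ≠ 0 := (Fact.out : p.Prime).ne_zero
  refine ⟨by rw [map_pow, constantCoeff_X, zero_pow hp], ?_⟩
  have hX0 : PowerSeries.HasSubst (MvPowerSeries.X 0 : MvPowerSeries (Fin 2) k) :=
    PowerSeries.HasSubst.X 0
  have hX1 : PowerSeries.HasSubst (MvPowerSeries.X 1 : MvPowerSeries (Fin 2) k) :=
    PowerSeries.HasSubst.X 1
  rw [PowerSeries.subst_pow (hs_F Γ), PowerSeries.subst_X (hs_F Γ),
    PowerSeries.subst_pow hX0, PowerSeries.subst_X hX0,
    PowerSeries.subst_pow hX1, PowerSeries.subst_X hX1]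
  have h2 : MvPowerSeries.subst ![(MvPowerSeries.X 0 : MvPowerSeries (Fin 2) k) ^ p,
      MvPowerSeries.X 1 ^ p] (Γ.map (frobenius k p)).toPowerSeries =
      MvPowerSeries.expand p hp (Γ.map (frobenius k p)).toPowerSeries := by
    unfold MvPowerSeries.expand
    rw [MvPowerSeries.substAlgHom_apply]
    refine congrArg (fun z => MvPowerSeries.subst z (Γ.map (frobenius k p)).toPowerSeries) ?_
    funext s
    fin_cases s <;> rfl
  rw [h2, ← MvPowerSeries.map_frobenius_expand p hp, MvPowerSeries.map_expand]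
  rfl

theorem omega_main [IsSepClosed k] [Γ.IsComm] {n : ℕ} (hn : 1 ≤ n) (hΓ : HasHeight p n Γ) {ζ : k}
    (hζ : ζ ^ p ^ n = ζ) : ∃ ω : EndF Γ, lin Γ ω = ζ := by
  by_cases h0 : ζ = 0
  · exact ⟨0, by rw [h0, map_zero]⟩
  · obtain ⟨β, h1, h2⟩ := lazard_iso p hn (G := Γ) (H := Γ) ‹_› ‹_› hΓ hΓ (b := ζ) h0
      (by rw [hζ, mul_comm])
    exact ⟨⟨β, h1⟩, h2⟩

theorem P_main [IsAlgClosed k] [hc : Γ.IsComm] {n : ℕ} (hn : 1 ≤ n) (hΓ : HasHeight p n Γ) :
    ∃ P : EndF Γ, P.s.order = (p : ℕ) := by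
  have hp := (Fact.out : p.Prime)
  set c := coeff (p ^ n) (mulSer Γ p) with hcdef
  have hc0 : c ≠ 0 := hΓ.2.ne_zero
  have hq : 1 < p ^ n := Nat.one_lt_pow (by omega) hp.one_lt
  obtain ⟨b, hb⟩ := IsAlgClosed.exists_pow_nat_eq (c ^ (p - 1)) (n := p ^ n - 1) (by omega)
  have hb0 : b ≠ 0 := by
    rintro rfl
    rw [zero_pow (by omega)] at hb
    exact pow_ne_zero _ hc0 hb.symm
  have hΓ' : HasHeight p n (Γ.map (frobenius k p)) := by
    refine ⟨fun i hi => ?_, ?_⟩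
    · rw [mulSer_map, coeff_map, hΓ.1 i hi, map_zero]
    · rw [mulSer_map, coeff_map]
      exact hΓ.2.map _
  obtain ⟨β, h1, h2⟩ := lazard_iso p hn (G := Γ.map (frobenius k p)) (H := Γ)
    (IsComm.map' hc _) hc hΓ' hΓ (b := b) hb0 (by
      rw [mulSer_map, coeff_map, frobenius_def, ← hcdef]
      have e1 : b ^ p ^ n = b ^ (p ^ n - 1) * b := by
        rw [← pow_succ]; congr 1; omega
      have e2 : c ^ p = c ^ (p - 1) * c := by
        rw [← pow_succ]; congr 1; have := hp.pos; omega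
      rw [e1, hb, e2]
      ring)
  have h3 := IsHom.comp (isHom_frob p Γ) h1
  refine ⟨⟨_, h3⟩, ?_⟩
  have h4 : β.order = ((1 : ℕ) : ℕ∞) := by
    rw [PowerSeries.order_eq_nat]
    refine ⟨by rw [h2]; exact hb0, fun i hi => ?_⟩
    obtain rfl : i = 0 := by omega
    rw [coeff_zero_eq_constantCoeff_apply]
    exact h1.1
  have h5 : ((X : k⟦X⟧) ^ p).order = ((p : ℕ) : ℕ∞) := PowerSeries.order_X_pow p
  have h6 := (order_comp (isHom_frob p Γ).1 h4 h5).1
  rw [one_mul] at h6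
  exact h6

end Pool.Agent.H2.CC
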