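import Pool.Agent.H2.CC.Zn
import Pool.Agent.H2.CC.Psh
import Pool.Agent.H22.CG.Star
import Pool.Agent.H13.CA.NF
import Pool.Agent.H13.CA.Big

/-!
# C1 assembly (CH-ALL): stable primes of coheight one
-/

open Pool.Agent.H13.CA Pool.Agent.H22.CG

namespace Pool.Agent.H2.CC

section rep

variable {k : Type*} [Field k] {m : ℕ} {F : FormalGroup (MvPowerSeries (Fin m) k)}
  {G : FormalGroup k} [G.IsComm]

/-- the reduction of the lifting `a` is `Q (ω)` -/
def Rep (ω : EndF G) (a : Lift k F) (Q : Polynomial ℤ) : Prop :=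
  red a.f = (Polynomial.aeval ω Q).s

variable {ω : EndF G}

theorem Rep.one : Rep ω (1 : Lift k F) 1 := by
  unfold Rep
  rw [map_one, EndF.one_s, Lift.red_one]

theorem Rep.mul {a b : Lift k F} {Q Q' : Polynomial ℤ} (h : Rep ω a Q) (h' : Rep ω b Q') :
    Rep ω (a * b) (Q * Q') := by
  unfold Rep at *
  rw [Lift.red_mul, h, h', mul_comm Q, map_mul, EndF.mul_s]

theorem Rep.pow {a : Lift k F} {Q : Polynomial ℤ} (h : Rep ω a Q) (n : ℕ) :
    Rep ω (a ^ n) (Q ^ n) := by
  induction n with
  | zero =>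
    rw [pow_zero, pow_zero]
    exact Rep.one
  | succ n ih =>
    rw [pow_succ, pow_succ]
    exact ih.mul h

theorem Rep.list {n : ℕ} (a : Fin n → Lift k F) (Q : Fin n → Polynomial ℤ)
    (h : ∀ i, Rep ω (a i) (Q i)) : Rep ω (List.ofFn a).prod (∏ i, Q i) := by
  induction n with
  | zero =>
    rw [List.ofFn_zero, List.prod_nil, Finset.univ_eq_empty, Finset.prod_empty]
    exact Rep.one
  | succ n ih =>
    rw [List.ofFn_succ, List.prod_cons, Fin.prod_univ_succ]
    exact (h 0).mul (ih _ _ fun i => h _)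

theorem pow_s (θ : EndF G) (n : ℕ) : (θ ^ n).s = iter θ.s n := by
  induction n with
  | zero => rw [pow_zero, EndF.one_s, iter_zero]
  | succ n ih => rw [pow_succ', EndF.mul_s, ih, iter_succ]

end rep

theorem prod_castLE {G : Type*} [Monoid G] {n m : ℕ} (hm : n ≤ m) (f : Fin m → G)
    (hf : ∀ i : Fin m, n ≤ i.val → f i = 1) :
    (List.ofFn f).prod = (List.ofFn fun i : Fin n => f (Fin.castLE hm i)).prod := by
  obtain ⟨r, rfl⟩ := Nat.exists_eq_add_of_le hm
  rw [List.ofFn_add, List.prod_append]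
  have h1 : (List.ofFn fun j : Fin r => f (Fin.natAdd n j)).prod = 1 := by
    apply List.prod_eq_one
    intro z hz
    rw [List.mem_ofFn] at hz
    obtain ⟨j, rfl⟩ := hz
    exact hf _ (by simp)
  rw [h1, mul_one]

/-- from a bound for the products of `Γ (A i)`, `A i` commuting, to a contradiction -/
theorem no_big_rank {k : Type*} [Field k] (p : ℕ) [Fact p.Prime] [CharP k p] {W : Type*} [Group W]
    (Γ : W →* (PowerSeries k ≃ₐ[k] PowerSeries k)) {h m : ℕ} (hm : h + 1 ≤ m) (A : Fin m → W)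
    (hA : ∀ i j, Γ (A i) * Γ (A j) = Γ (A j) * Γ (A i)) {K : ℕ} (hK : 1 ≤ K)
    (hlin : ∀ i, lin (Γ (A i)) ^ K = 1) (C : ℕ)
    (hC : ∀ (x : Fin m → ℕ) (M : ℕ), (¬ ∀ i, p ^ (M + 1) ∣ x i) →
      ¬ (PowerSeries.X : PowerSeries k) ^ (C * p ^ (h * M) + 1) ∣
        Γ (List.ofFn fun i => A i ^ x i).prod PowerSeries.X - PowerSeries.X) : False := by
  have hp : p.Prime := Fact.out
  obtain ⟨v, K', hK', hKv⟩ : ∃ v K', ¬ p ∣ K' ∧ K = p ^ v * K' := by
    obtain ⟨v, K', h1, h2⟩ := Nat.exists_eq_pow_mul_and_not_dvd (n := K) (by omega) p hp.ne_one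
    exact ⟨v, K', h1, h2⟩
  have hcop : ∀ M, Nat.Coprime (p ^ M) K' := fun M =>
    Nat.Coprime.pow_left M ((Nat.Prime.coprime_iff_not_dvd hp).mpr hK')
  refine ram_nat k p h (fun i => Γ (A (Fin.castLE hm i)) ^ K) ?_ ?_ (C * p ^ (h * v)) ?_
  · intro i j
    have h1 : Commute (Γ (A (Fin.castLE hm i))) (Γ (A (Fin.castLE hm j))) := hA _ _
    exact h1.pow_pow K K
  · intro i
    rw [wild_iff, map_pow]
    exact hlin _
  · intro y M hy hdvd
    set x : Fin m → ℕ := fun i => if hi : i.val < h + 1 then K * y ⟨i.val, hi⟩ else 0 with hx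
    have hxc : ∀ i : Fin (h + 1), x (Fin.castLE hm i) = K * y i := by
      intro i
      rw [hx]
      have : (Fin.castLE hm i).val < h + 1 := i.2
      simp only [Fin.val_castLE, Fin.is_lt, dif_pos, Fin.eta]
    refine hC x (M + v) ?_ ?_
    · intro hall
      apply hy
      intro i
      have h1 := hall (Fin.castLE hm i)
      rw [hxc, hKv, show M + v + 1 = v + (M + 1) by ring, pow_add, mul_assoc] at h1
      have h2 := Nat.dvd_of_mul_dvd_mul_left (pow_pos hp.pos v) h1
      exact (hcop (M + 1)).dvd_of_dvd_mul_left h2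
    · have h1 : C * p ^ (h * (M + v)) + 1 = C * p ^ (h * v) * p ^ (h * M) + 1 := by
        rw [mul_add, pow_add]
        ring
      have h2 : Γ (List.ofFn fun i => A i ^ x i).prod =
          (List.ofFn fun i => (Γ (A (Fin.castLE hm i)) ^ K) ^ y i).prod := by
        rw [map_list_prod, List.map_ofFn, prod_castLE hm]
        · congr 1
          congr 1
          funext i
          change Γ (A (Fin.castLE hm i) ^ x (Fin.castLE hm i)) = _
          rw [hxc, map_pow, pow_mul]
        · intro i hi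
          change Γ (A i ^ x i) = 1
          have h3 : x i = 0 := by
            rw [hx]
            simp only [dif_neg (not_lt.mpr hi)]
          rw [h3, pow_zero, map_one]
      rw [h1, h2]
      exact hdvd

theorem isHom_of_eq {k : Type*} [Field k] {G₁ G₂ : FormalGroup k} (h : G₁ = G₂)
    {f : PowerSeries k} (hf : IsHom G₁ G₁ f) : IsHom G₂ G₂ f := by
  subst h
  exact hf

theorem curve_main {k : Type*} [Field k] [IsAlgClosed k] (p : ℕ) [Fact p.Prime] [CharP k p]
    {m : ℕ} {F : FormalGroup (MvPowerSeries (Fin m) k)} (hF : IsLT k p m F)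
    (P : Ideal (MvPowerSeries (Fin m) k)) (hP : P.IsPrime)
    (h1 : ∀ P' : Ideal (MvPowerSeries (Fin m) k), P'.IsPrime → P < P' → P' = Istd k m m)
    (V : Subgroup (Lift k F)) (hV : Ample V)
    (hst : ∀ a ∈ V, P.map (a.g : MvPowerSeries (Fin m) k →+* MvPowerSeries (Fin m) k) ≤ P) :
    ∃ j, j ≤ m ∧ P = Istd k m j := by
  classical
  have hp : p.Prime := Fact.out
  by_cases hne : P = Istd k m m
  · exact ⟨m, le_rfl, hne⟩
  obtain ⟨ε, hε⟩ := exists_par P hP hne h1
  have hex : ∃ j : Fin m, MvPowerSeries.X j ∉ P := by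
    by_contra hcon
    push Not at hcon
    apply hne
    apply le_antisymm
    · rw [Istd_max]
      exact IsLocalRing.le_maximalIdeal hP.ne_top
    · unfold Istd
      rw [Ideal.span_le]
      rintro _ ⟨i, _, rfl⟩
      exact hcon i
  obtain ⟨j, hj, hmin⟩ : ∃ j : Fin m, MvPowerSeries.X j ∉ P ∧
      ∀ i : Fin m, i < j → MvPowerSeries.X i ∈ P := by
    obtain ⟨j, hj, hmin⟩ := WellFounded.has_min (wellFounded_lt (α := Fin m))
      {j | MvPowerSeries.X j ∉ P} hex
    refine ⟨j, hj, fun i hi => ?_⟩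
    by_contra hcon
    exact hmin i hcon hi
  have hIj : Istd k m j.val ≤ P := by
    unfold Istd
    rw [Ideal.span_le]
    rintro _ ⟨i, hi, rfl⟩
    exact hmin i hi
  obtain ⟨Γ, hΓ⟩ := exists_act hε V hst
  set F' := F.map (ε : MvPowerSeries (Fin m) k →+* PowerSeries k) with hF'
  have hcomm : F.IsComm := hF.comm
  have hcomm' : F'.IsComm := Pool.Agent.H13.CA.IsComm.map' hcomm _
  have hlow : ∀ i, i < p ^ (j.val + 1) → PowerSeries.coeff i (mulSer F' p) = 0 := by
    intro i hi
    rw [hF', mulSer_map, PowerSeries.coeff_map]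
    exact (hε.ker _).mpr (hIj (hF.low j.val j.2.le i hi))
  have hv : PowerSeries.coeff (p ^ (j.val + 1)) (mulSer F' p) ≠ 0 := by
    rw [hF', mulSer_map, PowerSeries.coeff_map]
    intro h2
    have h3 := (hε.ker _).mp h2
    have h4 := hIj (hF.mid j)
    have h5 := P.sub_mem h3 h4
    rw [sub_sub_cancel] at h5
    exact hj h5
  have hspc : spc F' = special F := special_eq hε
  have hsp0 : HasHeight p (m + 1) (special F) := by
    constructor
    · intro i hi
      unfold special
      rw [mulSer_map, PowerSeries.coeff_map]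
      have h2 := hF.low m le_rfl i hi
      rw [Istd_max, maxI_eq] at h2
      exact h2
    · unfold special
      rw [mulSer_map, PowerSeries.coeff_map]
      exact hF.top.map _
  have hsp : HasHeight p (m + 1) (spc F') := by
    rw [hspc]
    exact hsp0
  by_cases hlt : j.val + 2 ≤ m
  swap
  · obtain ⟨s, rfl⟩ : ∃ s, m = s + 1 := ⟨j.val, by have := j.2; omega⟩
    have hjs : j = Fin.last s := by
      apply Fin.ext
      have := j.2
      rw [Fin.val_last]
      omega
    obtain ⟨π, hπ⟩ := big_proj k s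
    refine ⟨s, Nat.le_succ s, last_step hP hπ ?_ ?_⟩
    · rw [hjs] at hIj
      exact hIj
    · rw [← hjs]
      exact hj
  exfalso
  obtain ⟨N, hN, hamp⟩ := hV
  have hamp' : ∀ θ : EndF (spc F'), IsUnit θ → ∃ a : V, red (a : Lift k F).f = (θ ^ N).s := by
    intro θ hθ
    have h2 : IsHom (special F) (special F) θ.s := isHom_of_eq hspc θ.hom
    have h3 : IsUnit (PowerSeries.coeff 1 θ.s) := by
      have := hθ.map (Pool.Agent.H22.CG.lin (spc F'))
      rwa [Pool.Agent.H22.CG.lin_apply] at this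
    obtain ⟨a, ha, hr⟩ := hamp θ.s h2 h3
    exact ⟨⟨a, ha⟩, by rw [pow_s]; exact hr⟩
  obtain ⟨ω, b, hb, hunit, C, hC⟩ := star p F' (h := j.val + 1) (n := m + 1) (by omega)
    (by have := j.2; omega) hlow hv hsp hN (by
      intro θ hθ
      obtain ⟨a, ha⟩ := hamp' θ hθ
      refine ⟨Γ a, _, (psh ε (a : Lift k F) (Γ a) (hΓ a)).hom, ?_⟩
      rw [← ha]
      exact red_psh hε _)
  set Q : Fin m → Polynomial ℤ := fun i => 1 + (p : Polynomial ℤ) ^ b * Polynomial.X ^ (i.val + 1)
    with hQ
  have hA : ∀ i : Fin m, ∃ a : V, Rep ω (a : Lift k F) (Q i ^ N) := by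
    intro i
    have h2 : IsUnit (Polynomial.aeval ω (Q i)) := by
      have h3 := hunit i
      rw [hQ]
      simpa using h3
    obtain ⟨a, ha⟩ := hamp' _ h2
    refine ⟨a, ?_⟩
    unfold Rep
    rw [ha, map_pow]
  choose A hA using hA
  have hAc : ∀ i j, A i * A j = A j * A i := by
    intro i j
    apply Subtype.ext
    apply lift_unique p hF
    have h2 := (hA i).mul (hA j)
    have h3 := (hA j).mul (hA i)
    unfold Rep at h2 h3
    change red ((A i : Lift k F) * (A j : Lift k F)).f = red ((A j : Lift k F) * (A i : Lift k F)).f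
    rw [h2, h3, mul_comm]
  obtain ⟨K, hK, hlin⟩ := lin_fin (p := p) (h := j.val + 1) (n := m + 1) hp.two_le (by omega)
    (by have := j.2; omega) hlow hv hsp
  refine no_big_rank p Γ (h := j.val + 1) (m := m) (by omega) A ?_ hK ?_ C ?_
  · intro i j
    rw [← map_mul, hAc, map_mul]
  · intro i
    exact hlin (psh ε (A i : Lift k F) (Γ (A i)) (hΓ (A i)))
  · intro x M hx
    refine hC x M hx (Γ (List.ofFn fun i => A i ^ x i).prod) _
      (psh ε ((List.ofFn fun i => A i ^ x i).prod : V) (Γ _) (hΓ _)).hom ?_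
    have h2 : Rep ω (((List.ofFn fun i => A i ^ x i).prod : V) : Lift k F) (∏ i, (Q i ^ N) ^ x i) := by
      have h3 : (((List.ofFn fun i => A i ^ x i).prod : V) : Lift k F) =
          (List.ofFn fun i => (A i : Lift k F) ^ x i).prod := by
        rw [← Subgroup.subtype_apply, map_list_prod, List.map_ofFn]
        rfl
      rw [h3]
      exact Rep.list _ _ fun i => (hA i).pow _
    have h4 := red_psh hε ((List.ofFn fun i => A i ^ x i).prod : V).1.f
    refine Eq.trans h4 ?_
    unfold Rep at h2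
    rw [h2]
    congr 2
    refine Finset.prod_congr rfl fun i _ => ?_
    rw [pow_mul]

end Pool.Agent.H2.CC
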