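import Pool.Agent.H2.RR.Main

/-!
# C1 assembly (CH-ALL): the linear coefficient of an automorphism of `k⟦X⟧`
-/

open PowerSeries
open Pool.Agent.H13.CH (Wild)

namespace Pool.Agent.H2.CC

variable {k : Type*} [Field k]

theorem cc_X (φ : k⟦X⟧ ≃ₐ[k] k⟦X⟧) : constantCoeff (φ X) = 0 := by
  by_contra h
  have h1 : IsUnit (φ X) := isUnit_iff_constantCoeff.mpr (isUnit_iff_ne_zero.mpr h)
  have h2 : IsUnit (X : k⟦X⟧) := (MulEquiv.isUnit_map (φ : k⟦X⟧ ≃* k⟦X⟧)).mp h1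
  have h3 := isUnit_iff_constantCoeff.mp h2
  rw [constantCoeff_X] at h3
  exact not_isUnit_zero h3

theorem X_dvd (φ : k⟦X⟧ ≃ₐ[k] k⟦X⟧) : (X : k⟦X⟧) ∣ φ X := X_dvd_iff.mpr (cc_X φ)

/-- automorphisms over `k` preserve the constant coefficient -/
theorem cc_apply (φ : k⟦X⟧ ≃ₐ[k] k⟦X⟧) (f : k⟦X⟧) : constantCoeff (φ f) = constantCoeff f := by
  have h2 : φ f = φ X * φ (mk fun n => coeff (n + 1) f) + C (constantCoeff f) := by
    have h3 : f = X * (mk fun n => coeff (n + 1) f) + C (constantCoeff f) :=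
      eq_X_mul_shift_add_const f
    conv_lhs => rw [h3]
    rw [map_add, map_mul]
    congr 1
    have h4 : (C (constantCoeff f) : k⟦X⟧) = algebraMap k k⟦X⟧ (constantCoeff f) := rfl
    rw [h4]
    exact φ.commutes _
  rw [h2, map_add, map_mul, cc_X, zero_mul, zero_add, constantCoeff_C]

theorem coeff_one_mul_of (a b : k⟦X⟧) (ha : constantCoeff a = 0) :
    coeff 1 (a * b) = coeff 1 a * constantCoeff b := by
  obtain ⟨c, rfl⟩ := X_dvd_iff.mpr ha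
  have h1 : ∀ d : k⟦X⟧, coeff 1 (X * d) = constantCoeff d := by
    intro d
    rw [← zero_add 1, coeff_succ_X_mul, coeff_zero_eq_constantCoeff_apply]
  rw [mul_assoc, h1, h1, map_mul]

theorem coeff_one_apply (φ : k⟦X⟧ ≃ₐ[k] k⟦X⟧) (f : k⟦X⟧) (hf : constantCoeff f = 0) :
    coeff 1 (φ f) = coeff 1 (φ X) * coeff 1 f := by
  obtain ⟨c, rfl⟩ := X_dvd_iff.mpr hf
  rw [map_mul, coeff_one_mul_of _ _ (cc_X φ), cc_apply, ← zero_add 1, coeff_succ_X_mul,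
    coeff_zero_eq_constantCoeff_apply]

/-- the linear coefficient -/
noncomputable def lin : (k⟦X⟧ ≃ₐ[k] k⟦X⟧) →* k where
  toFun φ := coeff 1 (φ X)
  map_one' := by
    rw [AlgEquiv.one_apply, coeff_one_X]
  map_mul' φ ψ := by
    rw [AlgEquiv.mul_apply, coeff_one_apply φ _ (cc_X ψ)]

theorem lin_apply (φ : k⟦X⟧ ≃ₐ[k] k⟦X⟧) : lin φ = coeff 1 (φ X) := rfl

theorem wild_iff (φ : k⟦X⟧ ≃ₐ[k] k⟦X⟧) : X ^ 2 ∣ φ X - X ↔ lin φ = 1 := by
  rw [X_pow_dvd_iff, lin_apply]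
  constructor
  · intro h
    have h1 := h 1 one_lt_two
    rw [map_sub, coeff_one_X] at h1
    exact sub_eq_zero.mp h1
  · intro h m hm
    interval_cases m
    · rw [map_sub, coeff_zero_eq_constantCoeff_apply, coeff_zero_eq_constantCoeff_apply, cc_X,
        constantCoeff_X, sub_zero]
    · rw [map_sub, h, coeff_one_X, sub_self]

/-- congruence of automorphisms modulo `X ^ N` -/
theorem dvd_mul {φ ψ : k⟦X⟧ ≃ₐ[k] k⟦X⟧} {N : ℕ} (h : X ^ N ∣ φ X - X) (h' : X ^ N ∣ ψ X - X) :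
    X ^ N ∣ (φ * ψ) X - X := by
  have h1 : (φ * ψ) X - X = φ (ψ X - X) + (φ X - X) := by
    rw [AlgEquiv.mul_apply, map_sub]
    ring
  rw [h1]
  refine dvd_add ?_ h
  obtain ⟨g, hg⟩ := h'
  rw [hg, map_mul, map_pow]
  exact Dvd.dvd.mul_right (pow_dvd_pow_of_dvd (X_dvd φ) N) _

end Pool.Agent.H2.CC
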