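import Pool.Agent.H2.CC.Lin
import Pool.Agent.H13.CA.Grp2
import Pool.Agent.H84.CA.Ac
import Pool.Agent.H98.CN.Norm

/-!
# C1 assembly (CH-ALL): the parametrisation of a prime of coheight one

`R = k⟦u_1, .., u_m⟧`, `P` a prime such that the maximal ideal is the only prime ideal strictly above `P`.  Then
there is `ε : R → k⟦X⟧` with kernel `P`, to which all automorphisms of `R` preserving `P` extend.
-/

open IsLocalRing Pool.Agent.H13.CA

namespace Pool.Agent.H2.CC

universe u

theorem precomplete_quot {R : Type*} [CommRing R] (I P : Ideal R) [IsPrecomplete I R] :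
    IsPrecomplete I (R ⧸ P) := by
  rw [← AdicCompletion.of_surjective_iff]
  intro x
  obtain ⟨y, rfl⟩ := AdicCompletion.map_surjective I (f := P.mkQ) (Submodule.mkQ_surjective P) x
  obtain ⟨r, rfl⟩ := AdicCompletion.of_surjective I R y
  exact ⟨P.mkQ r, (AdicCompletion.map_of I _ _).symm⟩

theorem complete_quot {R : Type*} [CommRing R] [IsLocalRing R] [IsNoetherianRing R]
    [IsAdicComplete (maximalIdeal R) R] (P : Ideal R) [IsLocalRing (R ⧸ P)] :
    IsAdicComplete (maximalIdeal (R ⧸ P)) (R ⧸ P) := by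
  have h1 : (maximalIdeal R).map (algebraMap R (R ⧸ P)) = maximalIdeal (R ⧸ P) :=
    IsLocalRing.map_maximalIdeal_of_surjective _ Ideal.Quotient.mk_surjective
  have h2 : IsPrecomplete (maximalIdeal R) (R ⧸ P) := precomplete_quot _ _
  have h3 : IsPrecomplete (maximalIdeal (R ⧸ P)) (R ⧸ P) := by
    rw [← h1]
    exact IsPrecomplete.map_algebraMap_iff.mpr h2
  exact { toIsHausdorff := inferInstance, toIsPrecomplete := h3 }

section mv

variable {k : Type u} [Field k] {m : ℕ}

theorem maxI_eq : maximalIdeal (MvPowerSeries (Fin m) k) =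
    RingHom.ker (MvPowerSeries.constantCoeff (σ := Fin m) (R := k)) := by
  ext x
  rw [IsLocalRing.mem_maximalIdeal, mem_nonunits_iff, MvPowerSeries.isUnit_iff_constantCoeff,
    isUnit_iff_ne_zero, not_not, RingHom.mem_ker]

theorem Istd_top : Istd k m m = Pool.Agent.H84.CA.vI (Fin m) k := by
  unfold Istd Pool.Agent.H84.CA.vI
  congr 1
  ext x
  constructor
  · rintro ⟨i, _, rfl⟩
    exact ⟨i, rfl⟩
  · rintro ⟨i, rfl⟩
    exact ⟨i, i.2, rfl⟩

theorem Istd_max : Istd k m m = maximalIdeal (MvPowerSeries (Fin m) k) := by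
  rw [Istd_top, Pool.Agent.H84.CA.vI_eq_ker, maxI_eq]

/-- a parametrisation of the curve `R / P` -/
structure Par (P : Ideal (MvPowerSeries (Fin m) k))
    (ε : MvPowerSeries (Fin m) k →ₐ[k] PowerSeries k) : Prop where
  ker : ∀ x, ε x = 0 ↔ x ∈ P
  cc : ∀ x, PowerSeries.constantCoeff (ε x) = MvPowerSeries.constantCoeff x
  ext : ∀ g : MvPowerSeries (Fin m) k ≃ₐ[k] MvPowerSeries (Fin m) k, (∀ x, x ∈ P ↔ g x ∈ P) →
    ∃ γ : PowerSeries k ≃ₐ[k] PowerSeries k, ∀ x, γ (ε x) = ε (g x)
  uniq : ∀ γ₁ γ₂ : PowerSeries k ≃ₐ[k] PowerSeries k, (∀ x, γ₁ (ε x) = γ₂ (ε x)) → γ₁ = γ₂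

theorem exists_par [IsAlgClosed k] (P : Ideal (MvPowerSeries (Fin m) k)) (hP : P.IsPrime)
    (hne : P ≠ Istd k m m)
    (h1 : ∀ P' : Ideal (MvPowerSeries (Fin m) k), P'.IsPrime → P < P' → P' = Istd k m m) :
    ∃ ε : MvPowerSeries (Fin m) k →ₐ[k] PowerSeries k, Par P ε := by
  have hac : IsAdicComplete (maximalIdeal (MvPowerSeries (Fin m) k)) (MvPowerSeries (Fin m) k) := by
    rw [maxI_eq]
    exact Pool.Agent.H84.CA.ac_ker
  have hloc : IsLocalRing (MvPowerSeries (Fin m) k ⧸ P) :=
    IsLocalRing.of_surjective' _ Ideal.Quotient.mk_surjective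
  have hcT : IsAdicComplete (maximalIdeal (MvPowerSeries (Fin m) k ⧸ P))
      (MvPowerSeries (Fin m) k ⧸ P) := complete_quot P
  have hmap : (maximalIdeal (MvPowerSeries (Fin m) k)).map (Ideal.Quotient.mk P) =
      maximalIdeal (MvPowerSeries (Fin m) k ⧸ P) :=
    IsLocalRing.map_maximalIdeal_of_surjective _ Ideal.Quotient.mk_surjective
  have hPle : P ≤ maximalIdeal (MvPowerSeries (Fin m) k) := IsLocalRing.le_maximalIdeal hP.ne_top
  have hmem : ∀ x : MvPowerSeries (Fin m) k, MvPowerSeries.constantCoeff x = 0 →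
      Ideal.Quotient.mk P x ∈ maximalIdeal (MvPowerSeries (Fin m) k ⧸ P) := by
    intro x hx
    rw [← hmap]
    refine Ideal.mem_map_of_mem _ ?_
    rw [maxI_eq]
    exact hx
  obtain ⟨j, hj1, hj2, hj3, hj4⟩ := Pool.Agent.H98.CN.exists_norm (k := k)
    (T := MvPowerSeries (Fin m) k ⧸ P) (by
      intro x
      obtain ⟨y, rfl⟩ := Ideal.Quotient.mk_surjective x
      refine ⟨MvPowerSeries.constantCoeff y, ?_⟩
      have h2 : Ideal.Quotient.mk P y - algebraMap k (MvPowerSeries (Fin m) k ⧸ P)
          (MvPowerSeries.constantCoeff y) =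
          Ideal.Quotient.mk P (y - algebraMap k _ (MvPowerSeries.constantCoeff y)) := by
        rw [map_sub]
        rfl
      rw [h2]
      apply hmem
      rw [map_sub]
      have h3 : MvPowerSeries.constantCoeff (algebraMap k (MvPowerSeries (Fin m) k)
          (MvPowerSeries.constantCoeff y)) = MvPowerSeries.constantCoeff y := by
        rw [MvPowerSeries.algebraMap_apply]
        simp
      rw [h3, sub_self])
    (by
      intro hF
      apply hne
      have h2 : P.IsMaximal := Ideal.Quotient.maximal_of_isField P hF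
      rw [Istd_max]
      exact (IsLocalRing.eq_maximalIdeal h2))
    (by
      intro Q hQ hQ0
      have h2 : (Q.comap (Ideal.Quotient.mk P)).IsPrime := Ideal.comap_isPrime _ _
      have h3 : P < Q.comap (Ideal.Quotient.mk P) := by
        refine lt_of_le_of_ne ?_ ?_
        · intro x hx
          rw [Ideal.mem_comap, Ideal.Quotient.eq_zero_iff_mem.mpr hx]
          exact Q.zero_mem
        · intro heq
          apply hQ0
          rw [eq_bot_iff]
          intro y hy
          obtain ⟨x, rfl⟩ := Ideal.Quotient.mk_surjective y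
          have h4 : x ∈ Q.comap (Ideal.Quotient.mk P) := hy
          rw [← heq] at h4
          exact Ideal.Quotient.eq_zero_iff_mem.mpr h4
      have h4 := h1 _ h2 h3
      rw [Istd_max] at h4
      rw [← hmap, ← h4, Ideal.map_comap_of_surjective _ Ideal.Quotient.mk_surjective])
  refine ⟨j.comp (Ideal.Quotient.mkₐ k P), ?_, ?_, ?_, ?_⟩
  · intro x
    rw [AlgHom.comp_apply, map_eq_zero_iff j hj1, Ideal.Quotient.mkₐ_eq_mk,
      Ideal.Quotient.eq_zero_iff_mem]
  · intro x
    have h2 : j (Ideal.Quotient.mk P x) = j (Ideal.Quotient.mk P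
        (x - algebraMap k _ (MvPowerSeries.constantCoeff x))) +
        algebraMap k (PowerSeries k) (MvPowerSeries.constantCoeff x) := by
      have h3 : Ideal.Quotient.mk P x = Ideal.Quotient.mk P
        (x - algebraMap k _ (MvPowerSeries.constantCoeff x)) +
        algebraMap k (MvPowerSeries (Fin m) k ⧸ P) (MvPowerSeries.constantCoeff x) := by
        rw [map_sub]
        have h4 : algebraMap k (MvPowerSeries (Fin m) k ⧸ P) (MvPowerSeries.constantCoeff x) =
          Ideal.Quotient.mk P (algebraMap k _ (MvPowerSeries.constantCoeff x)) := rfl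
        rw [h4]
        ring
      conv_lhs => rw [h3]
      rw [map_add, AlgHom.commutes]
    rw [AlgHom.comp_apply, Ideal.Quotient.mkₐ_eq_mk, h2, map_add]
    have h3 : (PowerSeries.X : PowerSeries k) ∣ j (Ideal.Quotient.mk P
        (x - algebraMap k _ (MvPowerSeries.constantCoeff x))) := by
      apply hj2
      apply hmem
      rw [map_sub, MvPowerSeries.algebraMap_apply]
      simp
    rw [PowerSeries.X_dvd_iff.mp h3, zero_add]
    exact PowerSeries.constantCoeff_C _
  · intro g hg
    have h2 : P = P.map (g : MvPowerSeries (Fin m) k ≃+* MvPowerSeries (Fin m) k) := by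
      ext x
      constructor
      · intro hx
        have h3 : g (g.symm x) = x := g.apply_symm_apply x
        have h4 : g.symm x ∈ P := (hg _).mpr (by rw [h3]; exact hx)
        rw [← h3]
        exact Ideal.mem_map_of_mem _ h4
      · intro hx
        have h3 : P.map (g : MvPowerSeries (Fin m) k ≃+* MvPowerSeries (Fin m) k) ≤ P := by
          rw [Ideal.map_le_iff_le_comap]
          intro y hy
          exact (hg y).mp hy
        exact h3 hx
    obtain ⟨γ, hγ⟩ := hj3 (Ideal.quotientEquivAlg P P g h2)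
    refine ⟨γ, fun x => ?_⟩
    rw [AlgHom.comp_apply, AlgHom.comp_apply, hγ]
    rfl
  · intro γ₁ γ₂ h
    apply hj4
    intro y
    obtain ⟨x, rfl⟩ := Ideal.Quotient.mk_surjective y
    exact h x

end mv

end Pool.Agent.H2.CC
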