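import Pool.Agent.H2.CC.Lin

/-!
# C1 assembly (CH-ALL): theorem R for natural exponents

`g i`, `i : Fin (h + 1)`, commuting wild automorphisms of `k⟦X⟧`; if all products
`g 0 ^ x 0 * .. * g h ^ x h`, `x` natural exponents not all divisible by `p ^ (m + 1)`, satisfy
`ord (φ X - X) ≤ C p ^ (h m)`, then we have a contradiction.
-/

open PowerSeries
open Pool.Agent.H13.CH (Wild)

namespace Pool.Agent.H2.CC

section group

variable {G : Type*} [Group G]

theorem prod_ofFn_mul (n : ℕ) (u v : Fin n → G) (h : ∀ i j, Commute (v i) (u j)) :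
    (List.ofFn fun i => u i * v i).prod = (List.ofFn u).prod * (List.ofFn v).prod := by
  induction n with
  | zero => simp
  | succ n ih =>
    rw [List.ofFn_succ, List.ofFn_succ, List.ofFn_succ, List.prod_cons, List.prod_cons,
      List.prod_cons, ih (fun i => u i.succ) (fun i => v i.succ) (fun i j => h _ _)]
    have h1 : Commute (v 0) (List.ofFn fun i => u (Fin.succ i)).prod := by
      apply Commute.list_prod_right
      intro x hx
      rw [List.mem_ofFn] at hx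
      obtain ⟨i, rfl⟩ := hx
      exact h _ _
    have h2 := h1.eq
    calc u 0 * v 0 * ((List.ofFn fun i => u (Fin.succ i)).prod * (List.ofFn fun i => v (Fin.succ i)).prod)
        = u 0 * (v 0 * (List.ofFn fun i => u (Fin.succ i)).prod) *
          (List.ofFn fun i => v (Fin.succ i)).prod := by simp only [mul_assoc]
      _ = u 0 * ((List.ofFn fun i => u (Fin.succ i)).prod * v 0) *
          (List.ofFn fun i => v (Fin.succ i)).prod := by rw [h2]
      _ = _ := by simp only [mul_assoc]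

/-- the homomorphism `Z ^ n → G` attached to commuting elements -/
def zhom {n : ℕ} (g : Fin n → G) (hg : ∀ i j, Commute (g i) (g j)) :
    Multiplicative (Fin n → ℤ) →* G where
  toFun x := (List.ofFn fun i => g i ^ (x.toAdd i)).prod
  map_one' := by
    have h1 : (fun i => g i ^ ((1 : Multiplicative (Fin n → ℤ)).toAdd i)) = fun _ : Fin n => (1 : G) := by
      funext i
      rw [toAdd_one, Pi.zero_apply, zpow_zero]
    rw [h1, List.ofFn_const, List.prod_replicate, one_pow]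
  map_mul' x y := by
    have h1 : (fun i => g i ^ ((x * y).toAdd i)) = fun i => g i ^ (x.toAdd i) * g i ^ (y.toAdd i) := by
      funext i
      rw [toAdd_mul, Pi.add_apply, zpow_add]
    rw [h1]
    exact prod_ofFn_mul n _ _ (fun i j => (hg i j).zpow_zpow _ _)

theorem zhom_apply {n : ℕ} (g : Fin n → G) (hg : ∀ i j, Commute (g i) (g j))
    (x : Multiplicative (Fin n → ℤ)) : zhom g hg x = (List.ofFn fun i => g i ^ (x.toAdd i)).prod :=
  rfl

theorem zhom_nat {n : ℕ} (g : Fin n → G) (hg : ∀ i j, Commute (g i) (g j)) (y : Fin n → ℕ) :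
    zhom g hg (Multiplicative.ofAdd fun i => (y i : ℤ)) = (List.ofFn fun i => g i ^ y i).prod := by
  rw [zhom_apply]
  congr 1
  congr 1
  funext i
  rw [toAdd_ofAdd, zpow_natCast]

end group

variable {k : Type*} [Field k]

theorem toAlgHom_pow (φ : k⟦X⟧ ≃ₐ[k] k⟦X⟧) (n : ℕ) :
    ((φ ^ n : k⟦X⟧ ≃ₐ[k] k⟦X⟧) : k⟦X⟧ →ₐ[k] k⟦X⟧) = (φ : k⟦X⟧ →ₐ[k] k⟦X⟧) ^ n := by
  induction n with
  | zero => rfl
  | succ n ih =>
    rw [pow_succ, pow_succ, ← ih]
    rfl

theorem wild_pow (p : ℕ) [Fact p.Prime] [CharP k p] {φ : k⟦X⟧ ≃ₐ[k] k⟦X⟧} (h : X ^ 2 ∣ φ X - X)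
    {a N : ℕ} (ha : N ≤ p ^ a) : X ^ N ∣ (φ ^ p ^ a) X - X := by
  have h1 : Wild (φ : k⟦X⟧ →ₐ[k] k⟦X⟧) := h
  have h2 := Wild.pow_prime_pow p h1 ha X
  rw [← toAlgHom_pow] at h2
  exact h2

theorem ram_nat (k : Type*) [Field k] (p : ℕ) [Fact p.Prime] [CharP k p] (h : ℕ)
    (g : Fin (h + 1) → (k⟦X⟧ ≃ₐ[k] k⟦X⟧)) (hg : ∀ i j, Commute (g i) (g j))
    (hw : ∀ i, (X : k⟦X⟧) ^ 2 ∣ g i X - X) (C : ℕ)
    (hC : ∀ (y : Fin (h + 1) → ℕ) (m : ℕ), (¬ ∀ i, p ^ (m + 1) ∣ y i) →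
      ¬ X ^ (C * p ^ (h * m) + 1) ∣ (List.ofFn fun i => g i ^ y i).prod X - X) : False := by
  have hp : p.Prime := Fact.out
  set σ := zhom g hg with hσ
  have hwσ : ∀ x, (X : k⟦X⟧) ^ 2 ∣ σ x X - X := by
    intro x
    rw [wild_iff, hσ, zhom_apply, map_list_prod, List.map_ofFn]
    apply List.prod_eq_one
    intro y hy
    rw [List.mem_ofFn] at hy
    obtain ⟨i, rfl⟩ := hy
    change lin (g i ^ (x.toAdd i)) = 1
    have h1 : g i ∈ (lin (k := k)).ker := (MonoidHom.mem_ker).mpr ((wild_iff _).mp (hw i))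
    exact (MonoidHom.mem_ker).mp (Subgroup.zpow_mem _ h1 _)
  refine Pool.Agent.H2.RR.ramR k p h σ hwσ C ?_
  intro x m hx hdvd
  set E := C * p ^ (h * m) + 1 with hE
  obtain ⟨L, hL1, hL2⟩ : ∃ L, m + 1 ≤ L ∧ E ≤ p ^ L := by
    refine ⟨max (m + 1) E, le_max_left _ _, ?_⟩
    exact le_trans (le_max_right _ _) (Nat.lt_pow_self hp.one_lt).le
  set z : Multiplicative (Fin (h + 1) → ℤ) := Multiplicative.ofAdd fun i => |x.toAdd i| with hz
  have hσz : X ^ E ∣ (σ z ^ p ^ L) X - X := wild_pow p (hwσ z) hL2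
  have hy : ∀ i, 0 ≤ x.toAdd i + (p ^ L : ℕ) * |x.toAdd i| := by
    intro i
    have h1 : (1 : ℤ) ≤ (p ^ L : ℕ) := by exact_mod_cast Nat.one_le_pow _ _ hp.pos
    have h2 := neg_abs_le (x.toAdd i)
    have h3 := abs_nonneg (x.toAdd i)
    nlinarith
  refine hC (fun i => (x.toAdd i + (p ^ L : ℕ) * |x.toAdd i|).toNat) m ?_ ?_
  · intro hall
    apply hx
    intro i
    have h1 := hall i
    have h2 : ((p ^ (m + 1) : ℕ) : ℤ) ∣ x.toAdd i + (p ^ L : ℕ) * |x.toAdd i| := by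
      have h3 := Int.natCast_dvd_natCast.mpr h1
      rwa [Int.toNat_of_nonneg (hy i)] at h3
    have h4 : ((p ^ (m + 1) : ℕ) : ℤ) ∣ (p ^ L : ℕ) * |x.toAdd i| := by
      refine Dvd.dvd.mul_right ?_ _
      exact_mod_cast pow_dvd_pow p hL1
    have h5 := (dvd_add_left h4).mp h2
    push_cast at h5
    exact h5
  · rw [← zhom_nat g hg, ← hσ]
    have h1 : (Multiplicative.ofAdd fun i => (((x.toAdd i + (p ^ L : ℕ) * |x.toAdd i|).toNat : ℕ) : ℤ)) =
        x * z ^ p ^ L := by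
      apply Multiplicative.toAdd.injective
      funext i
      rw [toAdd_ofAdd, toAdd_mul, toAdd_pow, Pi.add_apply, Pi.smul_apply, hz, toAdd_ofAdd,
        Int.toNat_of_nonneg (hy i), nsmul_eq_mul]
    rw [h1, map_mul, map_pow]
    exact dvd_mul hdvd hσz

end Pool.Agent.H2.CC
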